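import Pool.Agent.W606.PS.Stm

/-!
# The largest extension
-/

set_option autoImplicit false

open Set Relation

namespace Pool.Agent.W253.PS606

open Pool.Agent.W606.PS

/-- valid extensions -/
def Val {V : Type} (G : SimpleGraph V) (Om : Set V) (F g : V → ℤ) : Prop :=
  (∀ v, v ∉ Om → g v = F v) ∧ Lip G Om g

theorem bdd {V : Type} {G : SimpleGraph V} {Om : Set V} {F : V → ℤ} {z v : V} (hz : z ∉ Om)
    (h : ReflTransGen (fun a b => G.Adj a b ∧ a ∈ (univ : Set V) ∧ b ∈ (univ : Set V)) z v) :
    ∃ B : ℤ, ∀ g, Val G Om F g → g v ≤ B := by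
  induction h with
  | refl => exact ⟨F z, fun g hg => (hg.1 z hz).le⟩
  | @tail b c _ hbc ih =>
    obtain ⟨B, hB⟩ := ih
    by_cases hc : c ∈ Om
    · refine ⟨B + 1, fun g hg => ?_⟩
      have h1 := hB g hg
      have h2 := hg.2 c hc b hbc.1.symm
      rw [abs_le] at h2
      linarith [h2.2]
    · exact ⟨F c, fun g hg => (hg.1 c hc).le⟩

theorem main : S_FPLUS := by
  classical
  intro V _ G hG Om hOm F hF
  obtain ⟨z, hz⟩ := hOm
  choose B hB using fun v : V => bdd (F := F) hz (hG.2 z (mem_univ z) v (mem_univ v))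
  have hbound : ∃ b : ℤ, ∀ t : ℤ, (∃ g, Val G Om F g ∧ ∑ v, g v = t) → t ≤ b := by
    refine ⟨∑ v, B v, ?_⟩
    rintro t ⟨g, hg, rfl⟩
    exact Finset.sum_le_sum fun v _ => hB v g hg
  obtain ⟨t, ⟨f, hf, rfl⟩, hmax⟩ := Int.exists_greatest_of_bdd hbound
    ⟨∑ v, F v, F, ⟨fun v _ => rfl, hF⟩, rfl⟩
  refine ⟨f, hf.1, hf.2, fun u hu => ?_⟩
  by_contra hcon
  push Not at hcon
  set f' : V → ℤ := fun v => f v + if v = u then 1 else 0 with hf'
  have hval : Val G Om F f' := by
    refine ⟨fun v hv => ?_, fun a ha b hab => ?_⟩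
    · have hvu : v ≠ u := fun h => hv (h ▸ hu)
      simp only [hf', if_neg hvu, add_zero]
      exact hf.1 v hv
    · have h1 := hf.2 a ha b hab
      rw [abs_le] at h1
      by_cases hau : a = u
      · subst hau
        have hba : b ≠ a := hab.ne'
        have h2 := hcon b hab
        simp only [hf', if_neg hba, if_true, add_zero]
        rw [abs_le]
        omega
      · by_cases hbu : b = u
        · subst hbu
          have h2 := hcon a hab.symm
          simp only [hf', if_neg hau, if_true, add_zero]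
          rw [abs_le]
          omega
        · simp only [hf', if_neg hau, if_neg hbu, add_zero]
          rw [abs_le]
          exact h1
  have h1 := hmax _ ⟨f', hval, rfl⟩
  have h2 : ∑ v, f' v = ∑ v, f v + 1 := by
    simp only [hf']
    rw [Finset.sum_add_distrib, Finset.sum_ite_eq' Finset.univ u, if_pos (Finset.mem_univ u)]
  omega

end Pool.Agent.W253.PS606
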